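import Pool.Agent.KT3.StmtsA
import Pool.Agent.Helper80_NBT.ZLX
import Pool.Agent.Helper13_NBT.IBF

/-!
# KT3 squad (MP_e54c4c_gt), row WIP: existence of the projection of a wall
-/

set_option autoImplicit false

open Matrix Filter Topology

namespace Pool.Agent.KT3.H80

open Pool.Agent.PFS Pool.Agent.PFJ Pool.Agent.NBT

variable {n K : ℕ}

/-- the zoom limit of a wall along the vertices outside `I` -/
theorem zoom (hFAY : FayStmt) {C : Set (V n)} {Γ : Subgroup (GL (Fin n) ℝ)} (hcc : CC C Γ)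
    (hK3 : 3 ≤ K) {w : Fin K → V n} (hw : IsPES C Γ w) (S : Finset (Fin K)) :
    ∃ (φ : ℕ → ℕ) (g : ℕ → GL (Fin n) ℝ) (s : ℕ → ℝ) (W : Fin K → V n) (P : V n →ₗ[ℝ] V n),
      StrictMono φ ∧ (∀ m, g m ∈ Γ) ∧ (∀ m, 0 < s m) ∧ IsPES C Γ W ∧
      (∀ i, Tendsto (fun m => s m • act (g m)
        ((if i ∈ S then Real.exp ((φ m : ℕ) : ℝ) else 1) • w i)) atTop (𝓝 (W i))) ∧
      ∀ x, Tendsto (fun m => s m • act (g m) x) atTop (𝓝 (P x)) := by
  classical
  have hF : FAM C Γ Γ (fun w : Fin K → V n => IsPES C Γ w) := hFAY n C Γ K hcc (by omega)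
  have hP : PCone C := hcc.toPCone
  obtain ⟨B, hB, hnrm⟩ := Pool.Agent.NBT.H80.nrm hP
  have hwcl : ∀ i, w i ∈ closure C := hw.1.cl
  have hfC : ∑ i, w i ∈ C := hw.1.sum_mem
  let ρ : ℕ → Fin K → ℝ := fun m i => if i ∈ S then Real.exp ((m : ℕ) : ℝ) else 1
  have hρ : ∀ m i, 0 < ρ m i := by
    intro m i
    show 0 < (if i ∈ S then Real.exp ((m : ℕ) : ℝ) else 1)
    split_ifs
    · exact Real.exp_pos _
    · exact one_pos
  have hyT : ∀ m, IsPES C Γ (fun i => ρ m i • w i) := fun m => hF.scl w hw (ρ m) (hρ m)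
  obtain ⟨φ1, g1, s1, p, hφ1, hg1, hs1, hpC, hlim1⟩ := hF.cpt _ hyT
  have hyT2 : ∀ m, IsPES C Γ (fun i => s1 m • act (g1 m) (ρ (φ1 m) i • w i)) := fun m =>
    hF.scl _ (hF.inv _ (hyT (φ1 m)) (g1 m) (hg1 m)) (fun _ => s1 m) (fun _ => hs1 m)
  have hlim2 : Tendsto (fun m => ∑ i, s1 m • act (g1 m) (ρ (φ1 m) i • w i)) atTop (𝓝 p) := by
    refine hlim1.congr fun m => ?_
    rw [CC.act_sum, Finset.smul_sum]
  have hK : 2 ≤ Fintype.card (Fin K) := by
    rw [Fintype.card_fin]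
    omega
  obtain ⟨φ2, W, hφ2, hlimW, hWp, -⟩ := Pool.Agent.PFS.H37.lpsF n C Γ hcc (Fin K) hK
    (fun m i => s1 m • act (g1 m) (ρ (φ1 m) i • w i)) p (fun m => hyT2 m) hpC hlim2
  have hW : IsPES C Γ W := by
    refine hF.cld _ W (fun m => hyT2 (φ2 m)) hlimW ?_
    rw [hWp]
    exact hpC
  have hsum : Tendsto (fun m => s1 (φ2 m) • act (g1 (φ2 m)) (∑ i, ρ (φ1 (φ2 m)) i • w i)) atTop
      (𝓝 p) := hlim1.comp hφ2.tendsto_atTop
  have hbP : ∀ v ∈ (⊤ : Submodule ℝ (V n)), ∃ B' : ℝ,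
      ∀ᶠ m in atTop, ‖Pool.Agent.NBT.H80.sl (s1 (φ2 m)) (g1 (φ2 m)) v‖ ≤ B' := by
    intro v _
    obtain ⟨M, hM, hM1, hM2⟩ := absorb_two hP hfC v
    refine ⟨B * (M * (‖p‖ + 1)), ?_⟩
    have h1 : ∀ᶠ m in atTop, ‖s1 (φ2 m) • act (g1 (φ2 m)) (∑ i, ρ (φ1 (φ2 m)) i • w i)‖ <
        ‖p‖ + 1 := (hsum.norm).eventually_lt_const (by linarith)
    filter_upwards [h1] with m hm
    have h2 : (∑ i, ρ (φ1 (φ2 m)) i • w i) - ∑ i, w i ∈ closure C := by
      rw [← Finset.sum_sub_distrib]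
      refine hP.cl_sum fun i _ => ?_
      have h3 : ρ (φ1 (φ2 m)) i • w i - w i = (ρ (φ1 (φ2 m)) i - 1) • w i := by
        rw [sub_smul, one_smul]
      rw [h3]
      refine hP.cl_smul (hwcl i) ?_
      show 0 ≤ (if i ∈ S then Real.exp ((φ1 (φ2 m) : ℕ) : ℝ) else 1) - 1
      split_ifs
      · have := Real.one_le_exp (Nat.cast_nonneg (α := ℝ) (φ1 (φ2 m)))
        linarith
      · simp
    have h4 : ∀ z : V n, M • (∑ i, w i) + z ∈ closure C →
        M • (∑ i, ρ (φ1 (φ2 m)) i • w i) + z ∈ closure C := by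
      intro z hz
      have h5 : M • (∑ i, ρ (φ1 (φ2 m)) i • w i) + z =
          M • ((∑ i, ρ (φ1 (φ2 m)) i • w i) - ∑ i, w i) + (M • (∑ i, w i) + z) := by
        rw [smul_sub]
        abel
      rw [h5]
      exact hP.cl_add (hP.cl_smul h2 hM.le) hz
    have h6 : M • (∑ i, ρ (φ1 (φ2 m)) i • w i) - v ∈ closure C := by
      rw [sub_eq_add_neg]
      refine h4 _ ?_
      rw [← sub_eq_add_neg]
      exact subset_closure hM1
    have h7 : M • (∑ i, ρ (φ1 (φ2 m)) i • w i) + v ∈ closure C := h4 _ (subset_closure hM2)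
    have hgm := hg1 (φ2 m)
    have h8 := (hcc.sact_cl_iff hgm (hs1 (φ2 m))).mpr h6
    have h9 := (hcc.sact_cl_iff hgm (hs1 (φ2 m))).mpr h7
    rw [CC.act_sub, CC.act_smul, smul_sub, smul_comm (s1 (φ2 m)) M] at h8
    rw [CC.act_add, CC.act_smul, smul_add, smul_comm (s1 (φ2 m)) M] at h9
    have h10 := hnrm _ _ h8 h9
    rw [Pool.Agent.NBT.H80.sl_apply]
    refine h10.trans ?_
    rw [norm_smul, Real.norm_of_nonneg hM.le]
    gcongr
  obtain ⟨φ3, P, hφ3, hPlim⟩ := Pool.Agent.NBT.H80.lin_sub ⊤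
    (fun m => Pool.Agent.NBT.H80.sl (s1 (φ2 m)) (g1 (φ2 m))) hbP
  refine ⟨fun m => φ1 (φ2 (φ3 m)), fun m => g1 (φ2 (φ3 m)), fun m => s1 (φ2 (φ3 m)), W, P,
    (hφ1.comp hφ2).comp hφ3, fun m => hg1 _, fun m => hs1 _, hW, ?_, ?_⟩
  · intro i
    exact (hlimW i).comp hφ3.tendsto_atTop
  · intro x
    exact hPlim id tendsto_id (fun _ => x) x (fun _ => Submodule.mem_top) tendsto_const_nhds

theorem wip (hFAY : FayStmt) (_ : WicStmt) : WipStmt := by
  classical
  intro n C Γ K I d hHI w hw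
  have hcc : CC C Γ := hHI.toCC
  have hC : PCone C := hcc.toPCone
  obtain ⟨φ, g, s, W, P, hφ, hg, hs, hWI, hlim, hlimP⟩ := zoom hFAY hcc hHI.three hw.pes Iᶜ
  have hwI := hw.pes
  have hwcl : ∀ i, w i ∈ closure C := hwI.1.cl
  have hWcl : ∀ i, W i ∈ closure C := hWI.1.cl
  have hwC : ∑ i, w i ∈ C := hwI.1.sum_mem
  have hWC : ∑ i, W i ∈ C := hWI.1.sum_mem
  obtain ⟨-, -, hB3, -⟩ := (Pool.Agent.NBT.H13.ibf n C hC K w hwI.1).1 I (BI C w I) hw.box
  have hfI : fS w I ∈ BI C w I := by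
    unfold fS
    exact Submodule.sum_mem _ fun i hi => hw.box.mem i hi
  -- values on the vertices
  have hPin : ∀ i ∈ I, P (w i) = W i := by
    intro i hi
    have h1 := hlim i
    have h2 : i ∉ Iᶜ := fun h => (Finset.mem_compl.1 h) hi
    simp only [if_neg h2, one_smul] at h1
    exact tendsto_nhds_unique (hlimP (w i)) h1
  have hPout : ∀ i, i ∉ I → P (w i) = 0 := by
    intro i hi
    have h1 := hlim i
    have h2 : i ∈ Iᶜ := Finset.mem_compl.2 hi
    simp only [if_pos h2] at h1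
    have h3 : Tendsto (fun m => Real.exp (-((φ m : ℕ) : ℝ))) atTop (𝓝 0) :=
      Real.tendsto_exp_neg_atTop_nhds_zero.comp
        (tendsto_natCast_atTop_atTop.comp hφ.tendsto_atTop)
    have h4 := h3.smul h1
    rw [zero_smul] at h4
    refine tendsto_nhds_unique (hlimP (w i)) (h4.congr fun m => ?_)
    rw [CC.act_smul, smul_comm (s m), smul_smul, ← Real.exp_add, neg_add_cancel, Real.exp_zero,
      one_smul]
  have hPI : P (fS w I) = fS W I := by
    unfold fS
    rw [map_sum]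
    exact Finset.sum_congr rfl fun i hi => hPin i hi
  have hPIc : P (fS w Iᶜ) = 0 := by
    unfold fS
    rw [map_sum]
    exact Finset.sum_eq_zero fun i hi => hPout i (Finset.mem_compl.1 hi)
  have hPf : P (∑ i, w i) = fS W I := by
    rw [← fS_add_compl w I, map_add, hPI, hPIc, add_zero]
  have hPpos : ∀ x ∈ closure C, P x ∈ closure C := fun x hx =>
    isClosed_closure.mem_of_tendsto (hlimP x)
      (Eventually.of_forall fun m => (hcc.sact_cl_iff (hg m) (hs m)).2 hx)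
  have hPmem : ∀ x, P x ∈ BI C W I := by
    intro x
    obtain ⟨M, _, h1, h2⟩ := absorb_two hC hwC x
    have h3 := hPpos _ (subset_closure h1)
    have h4 := hPpos _ (subset_closure h2)
    rw [map_sub, map_smul, hPf] at h3
    rw [map_add, map_smul, hPf] at h4
    exact fce hC hWcl h3 h4
  -- the moving point
  obtain ⟨q, hq⟩ : ∃ q : ℕ → V n, q = fun m =>
    ∑ i, (if i ∈ Iᶜ then Real.exp ((φ m : ℕ) : ℝ) else 1) • w i := ⟨_, rfl⟩
  have hqs : ∀ m, q m = fS w I + Real.exp ((φ m : ℕ) : ℝ) • fS w Iᶜ := by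
    intro m
    rw [hq]
    show ∑ i, (if i ∈ Iᶜ then Real.exp ((φ m : ℕ) : ℝ) else 1) • w i = _
    rw [← Finset.sum_add_sum_compl I]
    congr 1
    · refine Finset.sum_congr rfl fun i hi => ?_
      rw [if_neg fun h => (Finset.mem_compl.1 h) hi, one_smul]
    · unfold fS
      rw [Finset.smul_sum]
      refine Finset.sum_congr rfl fun i hi => ?_
      rw [if_pos hi]
  have hql : Tendsto (fun m => s m • act (g m) (q m)) atTop (𝓝 (∑ i, W i)) := by
    have h3 : Tendsto (fun m => ∑ i, s m • act (g m)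
        ((if i ∈ Iᶜ then Real.exp ((φ m : ℕ) : ℝ) else 1) • w i)) atTop (𝓝 (∑ i, W i)) :=
      tendsto_finsetSum _ fun i _ => hlim i
    refine h3.congr fun m => ?_
    rw [hq, CC.act_sum, Finset.smul_sum]
  have hinjcl : ∀ y ∈ BI C w I, P y ∈ closure C → y ∈ closure C := by
    intro y hy hPy
    refine cl_of_eps (f := fS w I) fun ε hε => ?_
    have h1 : Tendsto (fun m => s m • act (g m) (y + ε • q m)) atTop
        (𝓝 (P y + ε • ∑ i, W i)) := by
      have h2 := (hlimP y).add (hql.const_smul ε)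
      refine h2.congr fun m => ?_
      rw [CC.act_add, CC.act_smul, smul_add, smul_comm ε (s m)]
    have h3 : P y + ε • ∑ i, W i ∈ C := hC.cl_add' hPy (hC.smul _ hWC ε hε)
    obtain ⟨m, hm⟩ := (h1.eventually (hC.isOpen.mem_nhds h3)).exists
    have h4 : y + ε • q m ∈ C := (hcc.sact_mem_iff (hg m) (hs m)).mp hm
    refine (hB3 _ (Submodule.add_mem _ hy (Submodule.smul_mem _ _ hfI))
      (fun _ => ε * Real.exp ((φ m : ℕ) : ℝ)) ?_).1
    have h5 : y + ε • fS w I + ∑ i ∈ Iᶜ, (ε * Real.exp ((φ m : ℕ) : ℝ)) • w i =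
        y + ε • q m := by
      rw [hqs m, ← Finset.smul_sum, smul_add, smul_smul]
      unfold fS
      abel
    rw [h5]
    exact subset_closure h4
  have hinj : ∀ y ∈ BI C w I, P y = 0 → y = 0 := by
    intro y hy h0
    refine hC.salient y (hinjcl y hy (by rw [h0]; exact hC.zero_cl)) (hinjcl (-y)
      (Submodule.neg_mem _ hy) (by rw [map_neg, h0, neg_zero]; exact hC.zero_cl))
  have hmap : (BI C w I).map P = BI C W I := by
    have hle : (BI C w I).map P ≤ BI C W I := by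
      rintro _ ⟨z, _, rfl⟩
      exact hPmem z
    refine Submodule.eq_of_le_of_finrank_le hle ?_
    refine (hHI.maxd W hWI).trans ?_
    rw [← hw.dim, ← LinearMap.range_domRestrict, LinearMap.finrank_range_of_inj]
    rw [injective_iff_map_eq_zero]
    rintro ⟨z, hz⟩ hz0
    exact Subtype.ext (hinj z hz hz0)
  -- the linear equivalence
  let e0 : ↥(BI C w I) →ₗ[ℝ] ↥(BI C W I) :=
    (P.domRestrict (BI C w I)).codRestrict (BI C W I) fun y => hPmem y
  have he0 : ∀ y : ↥(BI C w I), ((e0 y : ↥(BI C W I)) : V n) = P y := fun y => rfl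
  have hbij : Function.Bijective e0 := by
    refine ⟨?_, ?_⟩
    · rw [injective_iff_map_eq_zero]
      intro y hy
      have h1 : P (y : V n) = 0 := by rw [← he0, hy]; rfl
      exact Subtype.ext (hinj _ y.2 h1)
    · intro z
      have h1 : (z : V n) ∈ (BI C w I).map P := by rw [hmap]; exact z.2
      obtain ⟨y, hy, hyz⟩ := h1
      exact ⟨⟨y, hy⟩, Subtype.ext hyz⟩
  let e : ↥(BI C w I) ≃ₗ[ℝ] ↥(BI C W I) := LinearEquiv.ofBijective e0 hbij
  let P' : V n →ₗ[ℝ] ↥(BI C W I) := P.codRestrict (BI C W I) hPmem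
  let p : V n →ₗ[ℝ] V n := (BI C w I).subtype ∘ₗ (e.symm : ↥(BI C W I) →ₗ[ℝ] ↥(BI C w I)) ∘ₗ P'
  have hpmem : ∀ x, p x ∈ BI C w I := fun x => (e.symm (P' x)).2
  have hPp : ∀ x, P (p x) = P x := by
    intro x
    have h1 : e (e.symm (P' x)) = P' x := e.apply_symm_apply _
    have h2 := congrArg (fun z : ↥(BI C W I) => (z : V n)) h1
    exact h2
  have hpz : ∀ x, p x = 0 ↔ P x = 0 := by
    intro x
    constructor
    · intro h
      rw [← hPp, h, map_zero]
    · intro h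
      exact hinj _ (hpmem x) (by rw [hPp, h])
  refine ⟨p, hpmem, ?_, ?_, ?_⟩
  · intro y hy
    have h1 : p y - y = 0 := hinj _ (Submodule.sub_mem _ (hpmem y) hy)
      (by rw [map_sub, hPp, sub_self])
    exact sub_eq_zero.1 h1
  · intro x hx
    exact hinjcl _ (hpmem x) (by rw [hPp]; exact hPpos x hx)
  · intro x
    rw [hpz]
    constructor
    · intro h0 x0 hx0 τ hτ
      obtain ⟨M, hM, hM'⟩ := hC.absorb hx0 (∑ i, w i)
      have hδ : 0 < τ / M := div_pos hτ hM
      have h1 : τ • x0 - (τ / M) • ∑ i, w i ∈ closure C := by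
        have h2 := hC.cl_smul (subset_closure hM') hδ.le
        rw [smul_sub, smul_smul, div_mul_cancel₀ _ hM.ne'] at h2
        exact h2
      have hlx : Tendsto (fun m => s m • act (g m) x) atTop (𝓝 0) := by
        have := hlimP x
        rwa [h0] at this
      have hδC : (τ / M) • ∑ i, W i ∈ C := hC.smul _ hWC _ hδ
      have hm1 : Tendsto (fun m => s m • act (g m) ((τ / M) • q m - x)) atTop
          (𝓝 ((τ / M) • ∑ i, W i)) := by
        have h3 := (hql.const_smul (τ / M)).sub hlx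
        rw [sub_zero] at h3
        refine h3.congr fun m => ?_
        rw [CC.act_sub, CC.act_smul, smul_sub, smul_comm (s m)]
      have hm2 : Tendsto (fun m => s m • act (g m) ((τ / M) • q m + x)) atTop
          (𝓝 ((τ / M) • ∑ i, W i)) := by
        have h3 := (hql.const_smul (τ / M)).add hlx
        rw [add_zero] at h3
        refine h3.congr fun m => ?_
        rw [CC.act_add, CC.act_smul, smul_add, smul_comm (s m)]
      obtain ⟨m, h5, h6⟩ := ((hm1.eventually (hC.isOpen.mem_nhds hδC)).and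
        (hm2.eventually (hC.isOpen.mem_nhds hδC))).exists
      have h7 : (τ / M) • q m - x ∈ closure C :=
        subset_closure ((hcc.sact_mem_iff (hg m) (hs m)).1 h5)
      have h8 : (τ / M) • q m + x ∈ closure C :=
        subset_closure ((hcc.sact_mem_iff (hg m) (hs m)).1 h6)
      have h9 : (τ • x0 - (τ / M) • ∑ i, w i) + (τ / M) • fS w Iᶜ ∈ closure C :=
        hC.cl_add h1 (hC.cl_smul (fS_cl hC hwcl _) hδ.le)
      refine ⟨τ / M * Real.exp ((φ m : ℕ) : ℝ), mul_pos hδ (Real.exp_pos _), ?_, ?_⟩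
      · have h10 := hC.cl_add h7 h9
        have h11 : (τ / M) • q m - x + ((τ • x0 - (τ / M) • ∑ i, w i) + (τ / M) • fS w Iᶜ) =
            (τ / M * Real.exp ((φ m : ℕ) : ℝ)) • fS w Iᶜ + τ • x0 - x := by
          rw [hqs, ← fS_add_compl w I, smul_add, smul_add, smul_smul]
          abel
        rwa [h11] at h10
      · have h10 := hC.cl_add h8 h9
        have h11 : (τ / M) • q m + x + ((τ • x0 - (τ / M) • ∑ i, w i) + (τ / M) • fS w Iᶜ) =
            (τ / M * Real.exp ((φ m : ℕ) : ℝ)) • fS w Iᶜ + τ • x0 + x := by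
          rw [hqs, ← fS_add_compl w I, smul_add, smul_add, smul_smul]
          abel
        rwa [h11] at h10
    · intro hS
      have h1 : ∀ τ : ℝ, 0 < τ → -(P x) + τ • fS W I ∈ closure C ∧
          P x + τ • fS W I ∈ closure C := by
        intro τ hτ
        obtain ⟨κ, _, h2, h3⟩ := hS _ hwC τ hτ
        have h4 := hPpos _ h2
        have h5 := hPpos _ h3
        rw [map_sub, map_add, map_smul, map_smul, hPIc, smul_zero, zero_add, hPf] at h4
        rw [map_add, map_add, map_smul, map_smul, hPIc, smul_zero, zero_add, hPf] at h5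
        refine ⟨?_, ?_⟩
        · have e1 : -(P x) + τ • fS W I = τ • fS W I - P x := by abel
          rw [e1]; exact h4
        · rw [add_comm]; exact h5
      exact hC.salient _ (cl_of_eps fun τ hτ => (h1 τ hτ).2) (cl_of_eps fun τ hτ => (h1 τ hτ).1)

end Pool.Agent.KT3.H80
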