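import Pool.Agent.KT3.StmtsD
import Pool.Agent.Helper28_NBT.IBL
import Pool.Agent.Helper69_PFJ.Lsc

/-!
# KT3 squad (MP_e54c4c_gt), row ADC: the class `AD` is closed
-/

set_option autoImplicit false

open Matrix Filter Topology

namespace Pool.Agent.KT3.H80

open Pool.Agent.PFS Pool.Agent.PFJ Pool.Agent.NBT

theorem adc (hWIC : WicStmt) (hLFC : LfcStmt) (hLFM : LfmStmt) : AdcStmt := by
  classical
  intro n C Γ d δ hH x w hAD hlim hC
  have hP : PCone C := hH.toCC.toPCone
  have hWI : WI C Γ I01 d w := (hWIC n C Γ 3 I01 d hH.toHI x w (fun m => (hAD m).wl) hlim hC).1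
  refine ⟨hWI, ?_⟩
  intro y hy
  obtain ⟨z, hz, hev⟩ := hLFC n C Γ d hH x w (fun m => (hAD m).wl) hWI hlim y hy
  obtain ⟨N, hN⟩ := eventually_atTop.1 hev
  have hLf : ∀ m, Lf C (x (m + N)) (z (m + N)) := fun m => hN (m + N) (Nat.le_add_left _ _)
  have hbx : ∀ m, ∃ L : Submodule ℝ (V n), IB C (up (x (m + N)) (z (m + N))) I02 L ∧
      δ ≤ Module.finrank ℝ L := fun m => (hAD (m + N)).bx _ (hLf m)
  choose L hL hδ using hbx
  obtain ⟨φ, L', hφ, hLim, hdim⟩ := Pool.Agent.PFJ.H69.lsc n L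
  refine ⟨L', ?_, ?_⟩
  · have hpes : ∀ m, PES C (up (x (φ m + N)) (z (φ m + N))) := fun m =>
      ((hLFM n C Γ d hH _ (hAD (φ m + N)).wl).2 _ (hLf (φ m))).1.pes.1
    have hpesw : PES C (up w y) := ((hLFM n C Γ d hH _ hWI).2 _ hy).1.pes.1
    have hsh : Tendsto (fun m => φ m + N) atTop atTop :=
      tendsto_atTop_mono (fun m => Nat.le_add_right _ _) hφ.tendsto_atTop
    refine Pool.Agent.NBT.H28.ibl n C hP 3 (fun m => up (x (φ m + N)) (z (φ m + N))) (up w y)
      I02 (fun m => L (φ m)) L' hpes hpesw ?_ (fun m => hL (φ m)) hLim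
    intro l
    by_cases hl : l = 0
    · subst hl
      simp only [up, Function.update_self]
      exact hz.comp hsh
    · simp only [up, Function.update_of_ne hl]
      exact (hlim l).comp hsh
  · rw [← hdim 0]
    exact hδ _

end Pool.Agent.KT3.H80
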