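import Pool.Agent.KT3.StmtsM

/-!
# KT3 squad (MP_e54c4c_gt), row PRB: the second coordinate of a limit pair is positive
-/

set_option autoImplicit false

open Matrix Filter Topology

namespace Pool.Agent.KT3.H80

open Pool.Agent.PFS Pool.Agent.PFJ Pool.Agent.NBT

theorem prb (hWIP : WipStmt) (_ : WifStmt) (hLFM : LfmStmt) (_ : PheStmt) (_ : AnfStmt)
    (hPRA : PraStmt) : PrbStmt := by
  classical
  intro n C Γ d q hH w N y b b' hPR
  have hcc : CC C Γ := hH.toCC
  have hC : PCone C := hcc.toPCone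
  have hWI : WI C Γ I01 d w := hPR.an.wl
  have hw := hWI.pes
  have hwcl : ∀ i, w i ∈ closure C := hw.1.cl
  rcases hPR.b0'.lt_or_eq with h | hb
  · exact h
  exfalso
  have hpn : y - w 0 ∈ N := by
    have := hPR.pn
    rwa [← hb, zero_smul, sub_zero] at this
  have hLf0 : Lf C w (w 0) := (hLFM n C Γ d hH w hWI).1
  obtain ⟨p, hp⟩ := hPR.an.prj (w 0) hLf0
  have hpy : p y = w 0 := by
    have h1 := (hp.ker (y - w 0)).2 hpn
    rw [map_sub, hp.fx, sub_eq_zero] at h1
    exact h1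
  have hp1 : p (w 1) = 0 := (hp.ker (w 1)).2 hPR.an.mem
  -- `y + w 0 + w 1` is not in `C`
  have hsum : (∑ m ∈ Finset.univ.erase (2 : Fin 3), w m) = w 0 + w 1 := by
    have h1 : (Finset.univ.erase (2 : Fin 3)) = {0, 1} := by decide
    rw [h1, Finset.sum_pair (by decide)]
  have hnot : (∑ m ∈ Finset.univ.erase (2 : Fin 3), w m) + y ∉ C := by
    rw [hsum]
    intro hin
    obtain ⟨M, hM, hM'⟩ := hC.absorb hin (w 2)
    have h1 := hp.pos _ (subset_closure hM')
    rw [map_sub, map_smul, map_add, map_add, hp1, hpy, hp.fx, hp.fv] at h1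
    have h2 : M • (w 0 + 0 + w 0) - w 2 = ∑ i, (![2 * M, 0, -1] : Fin 3 → ℝ) i • w i := by
      rw [Fin.sum_univ_three]
      simp only [Matrix.cons_val_zero, Matrix.cons_val_one, Matrix.cons_val]
      rw [add_zero, smul_add, zero_smul, add_zero, two_mul, add_smul, neg_smul, one_smul]
      abel
    rw [h2] at h1
    have h3 : (0 : ℝ) ≤ -1 := nng n C hC (Fin 3) w hw.1 _ h1 2
    norm_num at h3
  -- `y` is in the limit set
  obtain ⟨N', hAN'⟩ := hPR.an'
  have hyL : y ∈ LamC C Γ := by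
    have h1 := hAN'.wl.pes.2 0
    simpa only [up, Function.update_self] using h1
  obtain ⟨M, hM, hMy⟩ := Pool.Agent.PFJ.H10.fmx n C Γ hcc 3 (le_refl 3) hH.maxc w 2 y hw hyL hnot
  rw [hsum] at hMy
  have hycl : y ∈ closure C := by
    have h1 := hAN'.wl.pes.1.cl 0
    simpa only [up, Function.update_self] using h1
  have hfS : fS w I01 = w 0 + w 1 := by
    unfold fS
    rw [Finset.sum_pair (by decide)]
  have hyF : y ∈ BI C w I01 := by
    refine fce hC hwcl (M := M) ?_ ?_
    · rw [hfS]; exact hMy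
    · exact hC.cl_add (hC.cl_smul (fS_cl hC hwcl _) hM.le) hycl
  obtain ⟨pr, hpr⟩ := hWIP n C Γ 3 I01 d hH.toHI w hWI
  have h1 := hpr.idB y hyF
  have h2 := (hPRA n C Γ d q hH w N y b b' hPR).2.2 pr hpr
  exact hPR.ne (h1.symm.trans h2)

end Pool.Agent.KT3.H80
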